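import Pool.Agent.helper24.RB.Spec

/-!
# MP_baa4d7_al, project RB, row NUM: the numbers
-/

set_option autoImplicit false

namespace Pool.Agent.LE

open Pool.Agent.helper58.DC Pool.Agent.DI Pool.Agent.GR Pool.Agent.OB Pool.Agent.DR Pool.Agent.FI Pool.Agent.FI3 Pool.Agent.FI4 Pool.Agent.FI4C

theorem NUM : NUM_stmt := by
  intro p r hp A _ _ hA hr s n hs hn
  set q := (powMonoidHom (p ^ s) : A →* A).range.index with hq
  set m := (p ^ (r * WS p r)) ^ 2 * ALL_c p r with hm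
  have h1 : q = Nat.card (powMonoidHom (p ^ s) : A →* A).ker := by
    have h2 := ALL_idx (A := A) (p ^ s)
    have h3 : Nat.card (powMonoidHom (p ^ s) : A →* A).range * q = Nat.card A := Subgroup.card_mul_index _
    have h4 : 0 < Nat.card (powMonoidHom (p ^ s) : A →* A).range := Nat.card_pos
    rw [← h3, mul_comm] at h2
    exact (Nat.eq_of_mul_eq_mul_left h4 h2).symm
  have h2 : q ≤ p ^ (r * WS p r) := by
    rw [h1]
    calc _ ≤ Nat.card (powMonoidHom p : A →* A).ker ^ s := ALL_om p s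
      _ ≤ (p ^ r) ^ s := Nat.pow_le_pow_left hr s
      _ = p ^ (r * s) := (pow_mul _ _ _).symm
      _ ≤ p ^ (r * WS p r) := Nat.pow_le_pow_right hp.pos (Nat.mul_le_mul_left _ hs)
  have h3 : q ^ 2 * n ≤ m := Nat.mul_le_mul (Nat.pow_le_pow_left h2 2) hn
  have h4 : Nat.card {u : A // orderOf u ≤ 4 * p * (q ^ 2 * n)} ≤ (p ^ r) ^ (4 * p * m) := by
    have h5 : ∀ u : {u : A // orderOf u ≤ 4 * p * (q ^ 2 * n)}, (u : A) ∈ (powMonoidHom (p ^ (4 * p * m)) : A →* A).ker := by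
      intro u
      obtain ⟨i, hi⟩ := (@IsPGroup.iff_orderOf p A _ ⟨hp⟩).1 hA (u : A)
      have h6 : i ≤ 4 * p * m := by
        have h7 : i < p ^ i := Nat.lt_pow_self hp.one_lt
        have h8 : p ^ i ≤ 4 * p * (q ^ 2 * n) := hi ▸ u.2
        exact h7.le.trans (h8.trans (Nat.mul_le_mul_left _ h3))
      rw [MonoidHom.mem_ker, powMonoidHom_apply]
      exact orderOf_dvd_iff_pow_eq_one.1 (hi ▸ pow_dvd_pow p h6)
    calc Nat.card {u : A // orderOf u ≤ 4 * p * (q ^ 2 * n)} ≤ Nat.card (powMonoidHom (p ^ (4 * p * m)) : A →* A).ker :=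
          Nat.card_le_card_of_injective (fun u : {u : A // orderOf u ≤ 4 * p * (q ^ 2 * n)} =>
            (⟨(u : A), h5 u⟩ : (powMonoidHom (p ^ (4 * p * m)) : A →* A).ker))
            fun a b hab => Subtype.ext (congrArg (fun x : (powMonoidHom (p ^ (4 * p * m)) : A →* A).ker => (x : A)) hab)
      _ ≤ Nat.card (powMonoidHom p : A →* A).ker ^ (4 * p * m) := ALL_om p _
      _ ≤ _ := Nat.pow_le_pow_left hr _
  exact Nat.mul_le_mul (Nat.mul_le_mul_left _ h3) h4

end Pool.Agent.LE
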